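import Pool.Agent.LeoK.StrStmts

/-!
Squad leok, module CUB: the cubic form of an ideal.
-/

set_option autoImplicit false

open NumberField IsDedekindDomain Module

namespace Pool.Agent.LeoK.H32

section core

variable {E : Type} [Field E] {U V U' V' B B' s N A0 A1 A2 A3 : E}

theorem cancel_aux {P Q : E} (hs : s ≠ 0) (hN : N ≠ 0)
    (h : P * s ^ 2 * N ^ 3 = Q * (N * s) ^ 2) : P * N = Q := by
  have h1 : N ^ 2 * s ^ 2 ≠ 0 := mul_ne_zero (pow_ne_zero _ hN) (pow_ne_zero _ hs)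
  apply mul_left_cancel₀ h1
  linear_combination h

theorem core (hB : B ≠ 0) (hB' : B' ≠ 0) (hs : s ≠ 0) (hN : N ≠ 0)
    (h0 : A0 * s = U ^ 3 / B - U' ^ 3 / B') (h1 : A1 * s = U ^ 2 * V / B - U' ^ 2 * V' / B')
    (h2 : A2 * s = U * V ^ 2 / B - U' * V' ^ 2 / B') (h3 : A3 * s = V ^ 3 / B - V' ^ 3 / B')
    (hBB : B * B' = N ^ 3) (hD : U * V' - V * U' = N * s) :
    (A1 ^ 2 - A0 * A2) * N = U * U' ∧ (A1 * A2 - A0 * A3) * N = U * V' + V * U' ∧
      (A2 ^ 2 - A1 * A3) * N = V * V' ∧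
      4 * (A1 ^ 2 - A0 * A2) * (A2 ^ 2 - A1 * A3) - (A1 * A2 - A0 * A3) ^ 2 = -s ^ 2 := by
  have k1 : (A1 ^ 2 - A0 * A2) * N = U * U' := by
    apply cancel_aux hs hN
    rw [← hBB, ← hD]
    have e : (A1 ^ 2 - A0 * A2) * s ^ 2 = (A1 * s) ^ 2 - (A0 * s) * (A2 * s) := by ring
    rw [e, h0, h1, h2]
    field_simp
    ring
  have k2 : (A1 * A2 - A0 * A3) * N = U * V' + V * U' := by
    apply cancel_aux hs hN
    rw [← hBB, ← hD]
    have e : (A1 * A2 - A0 * A3) * s ^ 2 = (A1 * s) * (A2 * s) - (A0 * s) * (A3 * s) := by ring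
    rw [e, h0, h1, h2, h3]
    field_simp
    ring
  have k3 : (A2 ^ 2 - A1 * A3) * N = V * V' := by
    apply cancel_aux hs hN
    rw [← hBB, ← hD]
    have e : (A2 ^ 2 - A1 * A3) * s ^ 2 = (A2 * s) ^ 2 - (A1 * s) * (A3 * s) := by ring
    rw [e, h1, h2, h3]
    field_simp
    ring
  refine ⟨k1, k2, k3, ?_⟩
  have hN2 : N ^ 2 ≠ 0 := pow_ne_zero _ hN
  apply mul_left_cancel₀ hN2
  have e1 : N ^ 2 * (4 * (A1 ^ 2 - A0 * A2) * (A2 ^ 2 - A1 * A3) - (A1 * A2 - A0 * A3) ^ 2) =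
      4 * ((A1 ^ 2 - A0 * A2) * N) * ((A2 ^ 2 - A1 * A3) * N) - ((A1 * A2 - A0 * A3) * N) ^ 2 := by
    ring
  rw [e1, k1, k2, k3]
  have e2 : N ^ 2 * -s ^ 2 = -(N * s) ^ 2 := by ring
  rw [e2, ← hD]
  ring

end core

/-- module CUB -/
theorem cub_ : CubStmt := by
  intro k F _ _ _ _ _ m s c hd hs hcs hm hy I u v β ν hν hβ hu hv hD hI hββ
  have hs0 : s ≠ 0 := by
    intro h0
    rw [h0] at hs
    refine hm 0 ?_
    apply (algebraMap k F).injective
    rw [map_pow, map_zero, map_neg, ← hs]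
  have hB : (β : F) ≠ 0 := by
    simpa using hβ
  have hB' : c (β : F) ≠ 0 := by
    rw [Ne, map_eq_zero_iff c c.injective]
    exact hB
  have hN : algebraMap k F (ν : k) ≠ 0 := by
    rw [Ne, map_eq_zero_iff _ (algebraMap k F).injective]
    simpa using hν
  have hdiv : ∀ x ∈ I ^ 3, ∃ a : 𝓞 k, algebraMap k F (a : k) * s =
      (x : F) / β - c ((x : F) / β) := by
    intro x hx
    obtain ⟨g, rfl⟩ := hI x hx
    obtain ⟨a, ha⟩ := hy g
    refine ⟨a, ?_⟩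
    have e : ((β * g : 𝓞 F) : F) / (β : F) = (g : F) := by
      have e1 : ((β * g : 𝓞 F) : F) = (β : F) * (g : F) := rfl
      rw [e1]
      exact mul_div_cancel_left₀ _ hB
    rw [e, ha]
  have hpow : ∀ x y z : 𝓞 F, x ∈ I → y ∈ I → z ∈ I → x * y * z ∈ I ^ 3 := by
    intro x y z hx hy hz
    rw [pow_succ, pow_two]
    exact Ideal.mul_mem_mul (Ideal.mul_mem_mul hx hy) hz
  obtain ⟨a₀, h₀⟩ := hdiv _ (hpow u u u hu hu hu)
  obtain ⟨a₁, h₁⟩ := hdiv _ (hpow u u v hu hu hv)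
  obtain ⟨a₂, h₂⟩ := hdiv _ (hpow u v v hu hv hv)
  obtain ⟨a₃, h₃⟩ := hdiv _ (hpow v v v hv hv hv)
  simp only [map_mul, map_div₀] at h₀ h₁ h₂ h₃
  obtain ⟨k1, k2, k3, k4⟩ := core (U := (u : F)) (V := (v : F)) (U' := c (u : F))
    (V' := c (v : F)) hB hB' hs0 hN (A0 := algebraMap k F (a₀ : k)) (A1 := algebraMap k F (a₁ : k))
    (A2 := algebraMap k F (a₂ : k)) (A3 := algebraMap k F (a₃ : k))
    (by rw [h₀]; ring) (by rw [h₁]; ring) (by rw [h₂]; ring) (by rw [h₃]; ring) hββ hD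
  refine ⟨a₀, a₁, a₂, a₃, ?_, ?_, ?_⟩
  · intro x y
    simp only [cub, map_add, map_mul, map_pow, map_div₀, map_ofNat, AlgEquiv.commutes]
    linear_combination (algebraMap k F x) ^ 3 * h₀ +
      3 * (algebraMap k F x) ^ 2 * algebraMap k F y * h₁ +
      3 * algebraMap k F x * (algebraMap k F y) ^ 2 * h₂ + (algebraMap k F y) ^ 3 * h₃
  · intro x y
    simp only [fP, fQ, fR, map_add, map_sub, map_mul, map_pow, AlgEquiv.commutes]
    linear_combination (algebraMap k F x) ^ 2 * k1 +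
      algebraMap k F x * algebraMap k F y * k2 + (algebraMap k F y) ^ 2 * k3
  · apply RingOfIntegers.coe_injective
    apply (algebraMap k F).injective
    have h5 : algebraMap k F (m : k) = -s ^ 2 := by rw [hs, neg_neg]
    rw [h5, ← k4]
    simp only [fM, fP, fQ, fR, map_sub, map_mul, map_pow, map_ofNat]

end Pool.Agent.LeoK.H32
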