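import Mathlib
import Pool.Agent.LeoK.StrStmts

/-!
# Squad leok: module RNK (unit ranks and cube roots of unity)
-/

set_option autoImplicit false

open NumberField IsDedekindDomain Module

namespace Pool.Agent.LeoK.H32

theorem real_emb (k : Type) [Field k] [NumberField k] (h : IsTotallyReal k) :
    Nonempty (k →+* ℝ) := by
  obtain ⟨v⟩ : Nonempty (InfinitePlace k) := inferInstance
  exact ⟨InfinitePlace.embedding_of_isReal (h.isReal v)⟩

theorem totc {k F : Type} [Field k] [NumberField k] [Field F] [NumberField F] [Algebra k F]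
    {m : 𝓞 k} {s : F} (hs : s ^ 2 = -algebraMap k F (m : k)) (hpos : ∀ φ : k →+* ℝ, 0 < φ m) :
    IsTotallyComplex F := by
  refine ⟨fun w => ?_⟩
  by_contra hw
  rw [InfinitePlace.not_isComplex_iff_isReal] at hw
  have h1 := congrArg (InfinitePlace.embedding_of_isReal hw) hs
  rw [map_pow, map_neg] at h1
  have h3 := hpos ((InfinitePlace.embedding_of_isReal hw).comp (algebraMap k F))
  rw [RingHom.comp_apply] at h3
  have h4 := sq_nonneg (InfinitePlace.embedding_of_isReal hw s)
  rw [h1] at h4
  linarith

theorem rank_totc (K : Type) [Field K] [NumberField K] [IsTotallyComplex K] {d : ℕ}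
    (h : finrank ℚ K = 2 * d) : Units.rank K = d - 1 := by
  have h1 := IsTotallyComplex.finrank K
  have h2 := InfinitePlace.card_eq_nrRealPlaces_add_nrComplexPlaces K
  have h3 := IsTotallyComplex.nrRealPlaces_eq_zero K
  rw [Units.rank, h2, h3]
  omega

/-- module RNK -/
theorem rnk_ : RnkStmt := by
  intro k F L _ _ _ _ _ _ _ _ m s hreal hF hs hpos hnsq hL
  have hT : IsTotallyComplex F := totc hs hpos
  have hTL : IsTotallyComplex L := isTotallyComplex_of_algebra F L
  obtain ⟨φ⟩ := real_emb k hreal
  have hF2 : finrank ℚ F = 2 * finrank ℚ k := by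
    have h := finrank_mul_finrank ℚ k F
    rw [hF] at h
    omega
  have hL6 : finrank ℚ L = 2 * (3 * finrank ℚ k) := by
    have h := finrank_mul_finrank ℚ F L
    rw [hF2, hL] at h
    omega
  have hk0 : 0 < finrank ℚ k := finrank_pos
  refine ⟨?_, ?_⟩
  · rw [rank_totc F hF2, rank_totc L hL6]
    omega
  have hsk : ∀ t : k, algebraMap k F t ≠ s := by
    intro t ht
    have h1 : t ^ 2 = -(m : k) := by
      apply (algebraMap k F).injective
      rw [map_pow, ht, hs, map_neg]
    have h2 := congrArg φ h1
    rw [map_pow, map_neg] at h2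
    have h3 := hpos φ
    have h4 := sq_nonneg (φ t)
    linarith
  -- coordinates
  have hco : ∀ x : F, ∃ a b : k, x = algebraMap k F a + algebraMap k F b * s := by
    have hli : LinearIndependent k ![(1 : F), s] := by
      rw [LinearIndependent.pair_iff]
      intro a b hab
      have hb : b = 0 := by
        by_contra hb
        apply hsk (-a / b)
        have hb' : algebraMap k F b ≠ 0 := by
          rwa [Ne, map_eq_zero]
        rw [map_div₀, div_eq_iff hb', map_neg]
        rw [Algebra.smul_def, Algebra.smul_def, mul_one] at hab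
        linear_combination -hab
      rw [hb, zero_smul, add_zero, Algebra.smul_def, mul_one, map_eq_zero] at hab
      exact ⟨hab, hb⟩
    have hsp := hli.span_eq_top_of_card_eq_finrank' (by simp [hF])
    intro x
    have hx : x ∈ Submodule.span k (Set.range ![(1 : F), s]) := by
      rw [hsp]
      exact Submodule.mem_top
    rw [Matrix.range_cons, Matrix.range_cons, Matrix.range_empty, Set.union_empty,
      Set.singleton_union, Submodule.mem_span_pair] at hx
    obtain ⟨a, b, hab⟩ := hx
    refine ⟨a, b, ?_⟩
    rw [← hab, Algebra.smul_def, Algebra.smul_def, mul_one]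
  intro x hx
  by_contra hx1
  have h5 : x ^ 2 + x + 1 = 0 := by
    have h6 : (x - 1) * (x ^ 2 + x + 1) = 0 := by linear_combination hx
    rcases mul_eq_zero.1 h6 with h | h
    · exact absurd (sub_eq_zero.1 h) hx1
    · exact h
  obtain ⟨a, b, hab⟩ := hco (2 * x + 1)
  have h7 : (algebraMap k F a + algebraMap k F b * s) ^ 2 = -3 := by
    rw [← hab]
    linear_combination 4 * h5
  have h8 : algebraMap k F (2 * a * b) * s = algebraMap k F (-3 - a ^ 2 + b ^ 2 * m) := by
    simp only [map_mul, map_add, map_sub, map_neg, map_pow, map_ofNat]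
    linear_combination h7 - (algebraMap k F b) ^ 2 * hs
  have h9 : 2 * a * b = 0 := by
    by_contra h
    apply hsk ((-3 - a ^ 2 + b ^ 2 * m) / (2 * a * b))
    have h' : algebraMap k F (2 * a * b) ≠ 0 := by
      rwa [Ne, map_eq_zero]
    rw [map_div₀, div_eq_iff h', ← h8, mul_comm]
  have h10 : -3 - a ^ 2 + b ^ 2 * (m : k) = 0 := by
    rw [h9, map_zero, zero_mul] at h8
    exact ((map_eq_zero (algebraMap k F)).1 h8.symm)
  have h11 : a = 0 ∨ b = 0 := by
    rcases mul_eq_zero.1 h9 with h | h
    · rcases mul_eq_zero.1 h with h | h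
      · exact absurd h two_ne_zero
      · exact Or.inl h
    · exact Or.inr h
  rcases h11 with h | h
  · subst h
    exact hnsq (b * m) (by linear_combination (m : k) * h10)
  · subst h
    have h12 := congrArg φ h10
    simp only [map_add, map_sub, map_neg, map_pow, map_ofNat, map_zero, map_mul] at h12
    have h4 := sq_nonneg (φ a)
    nlinarith

end Pool.Agent.LeoK.H32
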