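import Mathlib
import Pool.Agent.LeoK.StrStmts
import Pool.Agent.Helper32_LeoK.Rnk

/-!
# Squad leok: module EIS (a class of order 3 gives an irreducible binary cubic form)
-/

set_option autoImplicit false

open NumberField IsDedekindDomain Module
open scoped nonZeroDivisors

namespace Pool.Agent.LeoK.H32

theorem principal_of_mul {R : Type} [CommRing R] [IsDedekindDomain R] {a b : R}
    {J : Ideal R} (ha : a ≠ 0) (h : Ideal.span {a} * J = Ideal.span {b}) :
    ∃ w : R, J = Ideal.span {w} := by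
  have h1 : b ∈ Ideal.span {a} := by
    have h2 : b ∈ Ideal.span {b} := Ideal.mem_span_singleton_self b
    rw [← h] at h2
    exact Ideal.mul_le_left (I := Ideal.span {a}) (J := J) h2
  rw [Ideal.mem_span_singleton] at h1
  obtain ⟨w, rfl⟩ := h1
  refine ⟨w, mul_left_cancel₀ (a := Ideal.span {a}) ?_ ?_⟩
  · rw [Ne, Ideal.zero_eq_bot, Ideal.span_singleton_eq_bot]
    exact ha
  · rw [h, Ideal.span_singleton_mul_span_singleton]

theorem ideal_pow_inj {R : Type} [CommRing R] [IsDedekindDomain R] {I J : Ideal R}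
    (h : I ^ 3 = J ^ 3) : I = J := by
  refine dvd_antisymm ?_ ?_
  · rw [← UniqueFactorizationMonoid.pow_dvd_pow_iff_dvd (n := 3) (by norm_num), h]
  · rw [← UniqueFactorizationMonoid.pow_dvd_pow_iff_dvd (n := 3) (by norm_num), h]

theorem coords {k F : Type} [Field k] [Field F] [Algebra k F] (hF : finrank k F = 2) {s : F}
    (hsk : ∀ t : k, algebraMap k F t ≠ s) (x : F) :
    ∃ a b : k, x = algebraMap k F a + algebraMap k F b * s := by
  have hli : LinearIndependent k ![(1 : F), s] := by
    rw [LinearIndependent.pair_iff]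
    intro a b hab
    have hb : b = 0 := by
      by_contra hb
      apply hsk (-a / b)
      have hb' : algebraMap k F b ≠ 0 := by
        rwa [Ne, map_eq_zero]
      rw [map_div₀, div_eq_iff hb', map_neg]
      rw [Algebra.smul_def, Algebra.smul_def, mul_one] at hab
      linear_combination -hab
    rw [hb, zero_smul, add_zero, Algebra.smul_def, mul_one, map_eq_zero] at hab
    exact ⟨hab, hb⟩
  have : FiniteDimensional k F := Module.finite_of_finrank_eq_succ hF
  have hsp := hli.span_eq_top_of_card_eq_finrank' (by simp [hF])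
  have hx : x ∈ Submodule.span k (Set.range ![(1 : F), s]) := by
    rw [hsp]
    exact Submodule.mem_top
  rw [Matrix.range_cons, Matrix.range_cons, Matrix.range_empty, Set.union_empty,
    Set.singleton_union, Submodule.mem_span_pair] at hx
  obtain ⟨a, b, hab⟩ := hx
  refine ⟨a, b, ?_⟩
  rw [← hab, Algebra.smul_def, Algebra.smul_def, mul_one]

theorem conjI_span {F : Type} [Field F] (c : F ≃+* F) (x : 𝓞 F) :
    conjI c (Ideal.span {x}) = Ideal.span {RingOfIntegers.mapRingEquiv c x} := by
  rw [conjI, Ideal.map_span, Set.image_singleton]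

theorem conjI_mul {F : Type} [Field F] (c : F ≃+* F) (I J : Ideal (𝓞 F)) :
    conjI c (I * J) = conjI c I * conjI c J := by
  rw [conjI, Ideal.map_mul, conjI, conjI]

/-- module EIS -/
theorem eis_ (hQ : QuaStmt) (hB : BasStmt) (hI : IdlStmt) (hC : CubStmt) : EisStmt := by
  intro k F _ _ _ _ _ m s hreal hF hs hadm hhk hhF
  obtain ⟨φ₀⟩ := real_emb k hreal
  have hns : ∀ x : k, x ^ 2 ≠ -(m : k) := by
    intro x hx
    have h1 := congrArg φ₀ hx
    rw [map_pow, map_neg] at h1
    have h2 := hadm.pos φ₀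
    have h3 := sq_nonneg (φ₀ x)
    linarith
  have hsk : ∀ t : k, algebraMap k F t ≠ s := by
    intro t ht
    apply hns t
    apply (algebraMap k F).injective
    rw [map_pow, ht, hs, map_neg]
  have hs0 : s ≠ 0 := by
    intro h0
    exact hsk 0 (by rw [h0, map_zero])
  obtain ⟨c, hcs, hy, hw⟩ := hQ k F m s hF hs hns hadm.sqf hadm.two
  have hc1 : c ≠ 1 := by
    rintro rfl
    have h1 : s = -s := hcs
    have h2 : (2 : F) * s = 0 := by linear_combination h1
    rcases mul_eq_zero.1 h2 with h | h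
    · exact two_ne_zero h
    · exact hs0 h
  have hco := coords hF hsk
  have hcab : ∀ a b : k, c (algebraMap k F a + algebraMap k F b * s) =
      algebraMap k F a - algebraMap k F b * s := by
    intro a b
    rw [map_add, map_mul, AlgEquiv.commutes, AlgEquiv.commutes, hcs]
    ring
  have hnorm : ∀ φ : k →+* ℝ, ∀ (x : F) (t : k), x ≠ 0 → x * c x = algebraMap k F t → 0 < φ t := by
    intro φ x t hx0 hx
    obtain ⟨a, b, hab⟩ := hco x
    have h1 : algebraMap k F t = algebraMap k F (a ^ 2 + m * b ^ 2) := by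
      rw [← hx, hab, hcab]
      simp only [map_add, map_mul, map_pow]
      linear_combination (-(algebraMap k F b) ^ 2) * hs
    have h2 : t = a ^ 2 + m * b ^ 2 := (algebraMap k F).injective h1
    have h3 : t ≠ 0 := by
      rintro rfl
      rw [map_zero, mul_eq_zero, map_eq_zero_iff c c.injective, or_self] at hx
      exact hx0 hx
    have h4 : φ t ≠ 0 := by
      rwa [Ne, map_eq_zero]
    have h5 : 0 ≤ φ t := by
      rw [h2, map_add, map_mul, map_pow, map_pow]
      have := hadm.pos φ
      positivity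
    exact lt_of_le_of_ne h5 h4.symm
  -- an ideal class of order 3
  have : Fact (Nat.Prime 3) := ⟨Nat.prime_three⟩
  obtain ⟨x, hx⟩ := exists_prime_orderOf_dvd_card 3 hhF
  obtain ⟨⟨I, hI0⟩, rfl⟩ := ClassGroup.mk0_surjective x
  have hIne : I ≠ ⊥ := mem_nonZeroDivisors_iff_ne_zero.1 hI0
  have hnp : ¬ I.IsPrincipal := by
    intro hp
    rw [← ClassGroup.mk0_eq_one_iff hI0] at hp
    rw [hp, orderOf_one] at hx
    norm_num at hx
  have hI3 : (I ^ 3).IsPrincipal := by
    have h1 : ClassGroup.mk0 (⟨I, hI0⟩ : (Ideal (𝓞 F))⁰) ^ 3 = 1 := by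
      rw [← hx]
      exact pow_orderOf_eq_one _
    rw [← map_pow] at h1
    exact (ClassGroup.mk0_eq_one_iff (pow_mem hI0 3)).1 h1
  obtain ⟨β, ν, hβ, hν, hIβ, hββ, hIν⟩ := hI k F c hF hc1 hhk I hIne hI3
  obtain ⟨u, v, hu, hv, -, hD⟩ := hB k F m s c hF hs hcs hns hy hw I ν hν hIν
  obtain ⟨a₀, a₁, a₂, a₃, hform, hHess, hM⟩ := hC k F m s c hF hs hcs hns hy I u v β ν hν hβ hu hv hD
    (fun y hy => by
      rw [hIβ, Ideal.mem_span_singleton] at hy
      exact hy) hββ
  have hνF : algebraMap k F (ν : k) ≠ 0 := by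
    rw [Ne, map_eq_zero_iff _ (algebraMap k F).injective]
    simpa using hν
  have hβF : (β : F) ≠ 0 := by
    simpa using hβ
  have hu0 : (u : F) ≠ 0 := by
    intro h0
    rw [h0, map_zero, zero_mul, mul_zero, sub_zero] at hD
    exact mul_ne_zero hνF hs0 hD.symm
  have hνpos : ∀ φ : k →+* ℝ, 0 < φ (ν : k) := by
    intro φ
    have h1 := hnorm φ (β : F) ((ν : k) ^ 3) hβF (by rw [hββ, map_pow])
    rw [map_pow] at h1
    exact (Odd.pow_pos_iff (by decide)).1 h1
  refine ⟨a₀, a₁, a₂, a₃, ?_, ?_, hM⟩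
  · -- irreducibility
    intro x y hxy
    by_contra hne
    -- the element `l`
    obtain ⟨l, hl⟩ : ∃ l : 𝓞 F, l = algebraMap (𝓞 k) (𝓞 F) x * u + algebraMap (𝓞 k) (𝓞 F) y * v :=
      ⟨_, rfl⟩
    have hlI : l ∈ I := by
      rw [hl]
      exact I.add_mem (I.mul_mem_left _ hu) (I.mul_mem_left _ hv)
    have hlF : (l : F) = algebraMap k F (x : k) * u + algebraMap k F (y : k) * v := by
      rw [hl]
      rfl
    have hl0 : (l : F) ≠ 0 := by
      intro h0
      rw [hlF] at h0
      have h0c := congrArg c h0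
      rw [map_add, map_mul, map_mul, AlgEquiv.commutes, AlgEquiv.commutes, map_zero] at h0c
      have h1 : algebraMap k F (x : k) * (algebraMap k F (ν : k) * s) = 0 := by
        rw [← hD]
        linear_combination (c (v : F)) * h0 - (v : F) * h0c
      have h2 : algebraMap k F (y : k) * (algebraMap k F (ν : k) * s) = 0 := by
        rw [← hD]
        linear_combination (u : F) * h0c - (c (u : F)) * h0
      have h3 := (mul_eq_zero.1 h1).resolve_right (mul_ne_zero hνF hs0)
      have h4 := (mul_eq_zero.1 h2).resolve_right (mul_ne_zero hνF hs0)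
      rw [map_eq_zero] at h3 h4
      exact hne ⟨by simpa using h3, by simpa using h4⟩
    have hl0' : l ≠ 0 := by
      rintro rfl
      exact hl0 (map_zero _)
    have hl3 : l ^ 3 ∈ I ^ 3 := Ideal.pow_mem_pow hlI 3
    rw [hIβ, Ideal.mem_span_singleton] at hl3
    obtain ⟨G, hG⟩ := hl3
    have hGF : (l : F) ^ 3 / β = G := by
      rw [div_eq_iff hβF]
      have h1 : ((l ^ 3 : 𝓞 F) : F) = ((β * G : 𝓞 F) : F) := by rw [hG]
      have h2 : (l : F) ^ 3 = (β : F) * (G : F) := h1
      rw [h2, mul_comm]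
    have hcG : c (G : F) = G := by
      have h1 := hform (x : k) (y : k)
      have h2 : cub (a₀ : k) a₁ a₂ a₃ x y = 0 := by
        have h3 := congrArg (algebraMap (𝓞 k) k) hxy
        rw [map_zero] at h3
        rw [← h3]
        simp only [cub, map_add, map_mul, map_pow, map_ofNat]
      rw [h2, map_zero, zero_mul, ← hlF, hGF] at h1
      exact (sub_eq_zero.1 h1.symm).symm
    -- the ideal `J`
    have hdvd : I ∣ Ideal.span {l} := by
      rw [Ideal.dvd_span_singleton]
      exact hlI
    obtain ⟨J, hJ⟩ := hdvd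
    have hI30 : I ^ 3 ≠ 0 := pow_ne_zero 3 hIne
    have hJ3 : J ^ 3 = Ideal.span {G} := by
      apply mul_left_cancel₀ hI30
      rw [← mul_pow, ← hJ, hIβ, Ideal.span_singleton_mul_span_singleton, Ideal.span_singleton_pow,
        hG]
    have hcO : RingOfIntegers.mapRingEquiv (c : F ≃+* F) G = G := by
      apply RingOfIntegers.coe_injective
      exact hcG
    have hcJ : conjI (c : F ≃+* F) J = J := by
      apply ideal_pow_inj
      rw [hJ3, conjI, ← Ideal.map_pow, hJ3, Ideal.map_span, Set.image_singleton]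
      exact congrArg (fun z => Ideal.span {z}) hcO
    have hlc : Ideal.span {l * RingOfIntegers.mapRingEquiv (c : F ≃+* F) l} =
        Ideal.span {algebraMap (𝓞 k) (𝓞 F) ν} * J ^ 2 := by
      rw [← Ideal.span_singleton_mul_span_singleton, ← conjI_span, hJ, conjI_mul, hcJ, ← hIν]
      ring
    obtain ⟨t, ht⟩ := principal_of_mul (a := algebraMap (𝓞 k) (𝓞 F) ν) (by
      intro h0
      apply hνF
      have h1 : ((algebraMap (𝓞 k) (𝓞 F) ν : 𝓞 F) : F) = algebraMap k F (ν : k) := rfl
      rw [← h1, h0]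
      exact map_zero _) hlc.symm
    have hJ0 : J ≠ ⊥ := by
      rintro rfl
      rw [Ideal.mul_bot, Ideal.span_singleton_eq_bot] at hJ
      exact hl0' hJ
    have ht0 : t ≠ 0 := by
      rintro rfl
      rw [Ideal.span_singleton_eq_bot.2 rfl] at ht
      exact pow_ne_zero 2 hJ0 ht
    obtain ⟨w, hw'⟩ := principal_of_mul (a := t) (J := J) (b := G) ht0 (by
      rw [← ht, ← hJ3]
      ring)
    have hw0 : w ≠ 0 := by
      rintro rfl
      rw [Ideal.span_singleton_eq_bot.2 rfl] at hw'
      exact hJ0 hw'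
    obtain ⟨z, hz⟩ := principal_of_mul (a := w) (J := I) (b := l) hw0 (by
      rw [← hw', hJ]
      ring)
    exact hnp ⟨⟨z, hz⟩⟩
  · intro φ
    have h1 := hHess 1 0
    simp only [map_one, map_zero, one_pow, mul_one, mul_zero, add_zero, zero_mul, one_mul, ne_eq,
      OfNat.ofNat_ne_zero, not_false_eq_true, zero_pow] at h1
    have h2 := hnorm φ (u : F) ((fP a₀ a₁ a₂ : 𝓞 k) * (ν : k)) hu0 (by rw [← h1, map_mul])
    rw [map_mul] at h2
    exact pos_of_mul_pos_left h2 (hνpos φ).le

end Pool.Agent.LeoK.H32
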